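import Pool.Agent.L0h18.HZ.Defs

/-!
# HZ / TOP: topology of the cones of positive (semi)definite vectors
-/

set_option autoImplicit false

open Pool.Agent.Y167 (Sys cone psd_iff pd_iff pd_lower dot_mulVec_le)
open Pool.Agent.L0h18.CO (IsOpenCone)
open Pool.Agent.L0h18.HZ
open Topology Matrix

namespace Pool.Agent.L0h55.HZ

variable {A : Type} [Ring A] [Algebra ℝ A] {r ρ : ℕ} {S : Sys A r} {Φ : (Fin ρ → ℝ) →ₗ[ℝ] A}

/-- entries of the matrices depend continuously on the vector -/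
theorem cont_entry (S : Sys A r) (Φ : (Fin ρ → ℝ) →ₗ[ℝ] A) (i j : Fin r) :
    Continuous fun x : Fin ρ → ℝ => S.mat (Φ x) i j := by
  let f : (Fin ρ → ℝ) →ₗ[ℝ] ℝ :=
    { toFun := fun x => S.mat (Φ x) i j
      map_add' := fun x y => by simp [map_add, Matrix.add_apply]
      map_smul' := fun c x => by simp [map_smul, Matrix.smul_apply] }
  exact LinearMap.continuous_of_finiteDimensional f

theorem sa_mat (h : Herm S Φ) (x : Fin ρ → ℝ) : (S.mat (Φ x))ᵀ = S.mat (Φ x) := by
  rw [← S.mat_st, (h.range (Φ x)).2 ⟨x, rfl⟩]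

theorem isOpen_pd (h : Herm S Φ) : IsOpen (pd S Φ) := by
  rw [isOpen_iff_mem_nhds]
  intro x hx
  have hx' : (S.mat (Φ x)).PosDef := hx
  obtain ⟨δ, hδ, hb⟩ := pd_lower hx'
  have hc : Continuous fun y : Fin ρ → ℝ => ∑ i, ∑ j, |(S.mat (Φ y) - S.mat (Φ x)) i j| := by
    refine continuous_finsetSum _ fun i _ => continuous_finsetSum _ fun j _ => ?_
    simp only [Matrix.sub_apply]
    exact ((cont_entry S Φ i j).sub continuous_const).abs
  have ho : IsOpen {y : Fin ρ → ℝ | ∑ i, ∑ j, |(S.mat (Φ y) - S.mat (Φ x)) i j| < δ} :=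
    isOpen_lt hc continuous_const
  refine Filter.mem_of_superset (ho.mem_nhds (by simpa using hδ)) ?_
  intro y hy
  simp only [Set.mem_ofPred_eq] at hy
  change (S.mat (Φ y)).PosDef
  rw [pd_iff]
  refine ⟨sa_mat h y, fun v hv => ?_⟩
  have h1 := hb v
  have h2 := (abs_le.1 (dot_mulVec_le (S.mat (Φ y) - S.mat (Φ x)) v)).1
  rw [sub_mulVec, dotProduct_sub] at h2
  have h3 : 0 < v ⬝ᵥ v := by
    have := (pd_iff.1 (PosDef.one (n := Fin r) (R := ℝ))).2 v hv
    rwa [one_mulVec] at this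
  nlinarith

theorem isClosed_psd (h : Herm S Φ) : IsClosed (psd S Φ) := by
  have e : psd S Φ = ⋂ v : Fin r → ℝ, {x | 0 ≤ v ⬝ᵥ (S.mat (Φ x) *ᵥ v)} := by
    ext x
    simp only [Set.mem_iInter, Set.mem_ofPred_eq]
    constructor
    · intro hx v
      exact (psd_iff.1 (show (S.mat (Φ x)).PosSemidef from hx)).2 v
    · intro hx
      exact psd_iff.2 ⟨sa_mat h x, hx⟩
  rw [e]
  refine isClosed_iInter fun v => isClosed_le continuous_const ?_
  simp only [dotProduct, mulVec]
  refine continuous_finsetSum _ fun i _ => continuous_const.mul ?_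
  exact continuous_finsetSum _ fun j _ => (cont_entry S Φ i j).mul continuous_const

theorem pd_smul_one {S : Sys A r} {t : ℝ} (ht : 0 < t) : S.Pd (t • (1 : A)) := by
  rw [Sys.pd_iff']
  refine ⟨by rw [map_smul, S.st_one], fun x hx => ?_⟩
  have := (Sys.pd_iff'.1 (Sys.pd_one (S := S))).2 x hx
  rw [mul_smul_comm, smul_mul_assoc, map_smul, smul_eq_mul]
  exact mul_pos ht this

theorem pd_smul {S : Sys A r} {a : A} (ha : S.Pd a) {t : ℝ} (ht : 0 < t) : S.Pd (t • a) := by
  rw [Sys.pd_iff'] at ha ⊢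
  refine ⟨by rw [map_smul, ha.1], fun x hx => ?_⟩
  rw [mul_smul_comm, smul_mul_assoc, map_smul, smul_eq_mul]
  exact mul_pos ht (ha.2 x hx)

theorem psd_neg {S : Sys A r} {a : A} (ha : S.Psd a) (hb : S.Psd (-a)) : a = 0 := by
  have h1 := ha.tr_nonneg
  have h2 := hb.tr_nonneg
  rw [map_neg] at h2
  exact ha.eq_zero (le_antisymm (by linarith) h1)

theorem top : S_TOP := by
  intro A _ _ r ρ S Φ h
  obtain ⟨x₁, hx₁⟩ := (h.range 1).1 S.st_one
  have hpp : pd S Φ ⊆ psd S Φ := fun x hx => Sys.Pd.psd hx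
  have hcl : closure (pd S Φ) = psd S Φ := by
    apply Set.Subset.antisymm
    · exact closure_minimal hpp (isClosed_psd h)
    · intro x hx
      have hlim : Filter.Tendsto (fun n : ℕ => x + ((1 : ℝ) / ((n : ℝ) + 1)) • x₁) Filter.atTop (𝓝 x) := by
        have h0 := (tendsto_one_div_add_atTop_nhds_zero_nat (𝕜 := ℝ)).smul_const x₁
        have h1 := (tendsto_const_nhds (x := x) (f := Filter.atTop (α := ℕ))).add h0
        simpa using h1
      refine mem_closure_of_tendsto hlim (Filter.Eventually.of_forall fun n => ?_)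
      change S.Pd (Φ (x + ((1 : ℝ) / ((n : ℝ) + 1)) • x₁))
      rw [map_add, map_smul, hx₁, add_comm]
      exact Sys.Pd.add_psd (pd_smul_one (by positivity)) hx
  have hint : interior (psd S Φ) = pd S Φ := by
    apply Set.Subset.antisymm
    · intro x hx
      have hcont : Filter.Tendsto (fun t : ℝ => x - t • x₁) (𝓝[>] 0) (𝓝 x) := by
        have hc : Continuous fun t : ℝ => x - t • x₁ := by fun_prop
        have := hc.tendsto 0
        simp only [zero_smul, sub_zero] at this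
        exact this.mono_left nhdsWithin_le_nhds
      have hev : ∀ᶠ t : ℝ in 𝓝[>] 0, x - t • x₁ ∈ interior (psd S Φ) :=
        hcont (isOpen_interior.mem_nhds hx)
      have hpos : ∀ᶠ t : ℝ in 𝓝[>] 0, t ∈ Set.Ioi (0 : ℝ) := self_mem_nhdsWithin
      obtain ⟨t, ht, ht0⟩ := (Filter.Eventually.and hev hpos).exists
      have h0 : x - t • x₁ ∈ psd S Φ := interior_subset ht
      have h1 : S.Psd (Φ (x - t • x₁)) := h0
      have h2 : S.Pd (t • (1 : A) + Φ (x - t • x₁)) := Sys.Pd.add_psd (pd_smul_one ht0) h1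
      have h3 : t • (1 : A) + Φ (x - t • x₁) = Φ x := by
        rw [map_sub, map_smul, hx₁]; abel
      rw [h3] at h2
      exact h2
    · exact interior_maximal hpp (isOpen_pd h)
  refine ⟨⟨isOpen_pd h, ?_, ?_, ?_⟩, hcl, hint, ⟨x₁, ?_⟩, ⟨isClosed_psd h, ?_, ?_⟩⟩
  · intro x hx z hz
    change S.Pd (Φ (x + z))
    rw [map_add]
    exact Sys.Pd.add_psd hx (Sys.Pd.psd hz)
  · intro t ht x hx
    change S.Pd (Φ (t • x))
    rw [map_smul]
    exact pd_smul hx ht
  · rw [hcl]
    intro x hx hx'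
    have h2 : S.Psd (Φ (-x)) := hx'
    rw [map_neg] at h2
    have h3 := psd_neg hx h2
    exact h.inj (by rw [h3, map_zero])
  · change S.Pd (Φ x₁)
    rw [hx₁]
    exact Sys.pd_one
  · intro x hx z hz
    change S.Psd (Φ (x + z))
    rw [map_add]
    exact Sys.Psd.add hx hz
  · intro t ht x hx
    change S.Psd (Φ (t • x))
    rw [map_smul]
    exact Sys.Psd.smul hx ht

end Pool.Agent.L0h55.HZ
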